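import Pool.Agent.Y467.QP.Base
import Pool.Agent.Y467.QP.Posp

set_option autoImplicit false

/-!
Filters generated by selectors.
-/

namespace Pool.Agent.Y467.QP

open Pool.Agent.H562R3 Set

/-- A family of sets of natural numbers with infinitely many ultrafilters above it has at least
`2 ^ 𝔠` of them. -/
theorem many_above {I : Type} (S : I → Set ℕ)
    (hinf : {p : Ultrafilter ℕ | ∀ i, S i ∈ p}.Infinite) :
    ∃ F : Set (Set ℕ) → Ultrafilter ℕ, Function.Injective F ∧ ∀ J i, S i ∈ F J := by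
  classical
  let e0 := hinf.natEmbedding
  let w : ℕ → Ultrafilter ℕ := fun n => (e0 n).1
  have hw : Function.Injective w := fun a b h => e0.injective (Subtype.ext h)
  have hwS : ∀ n i, S i ∈ w n := fun n => (e0 n).2
  obtain ⟨A, ⟨m, hm⟩, hA2⟩ := key (T := Unit) (by
      refine lt_trans ?_ aleph0_lt_dNum
      exact Cardinal.lt_aleph0_of_finite _) (fun _ => Set.univ) (fun _ _ => ⟨(), subset_rfl, subset_rfl⟩)
      (fun _ => Set.infinite_univ) w hw
  have hAinf : (A \ {m}).Infinite := by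
    have h1 := hA2 ()
    rw [Set.univ_inter] at h1
    exact h1.sdiff (Set.finite_singleton m)
  obtain ⟨Z, hZ1, hZ2⟩ := disc hw (A \ {m}) (by
    intro k hk
    obtain ⟨N, hN, hfin⟩ := hm k hk.2
    exact ⟨N, hN, hfin.subset (fun j hj => ⟨hj.1.1, hj.2⟩)⟩)
  let e := hAinf.natEmbedding
  let v : ℕ → Ultrafilter ℕ := fun n => w (e n).1
  let Y : ℕ → Set ℕ := fun n => Z (e n).1
  have hY1 : ∀ n, Y n ∈ v n := fun n => hZ1 _ (e n).2
  have hY2 : ∀ a b, a ≠ b → Disjoint (Y a) (Y b) := by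
    intro a b hab
    exact hZ2 _ (e a).2 _ (e b).2 (fun h => hab (e.injective (Subtype.ext h)))
  obtain ⟨U, hU, _⟩ := Posp.exists_free
  refine ⟨fun J => (U J).bind v, ?_, ?_⟩
  · intro J J' hJ
    by_contra hne
    have hne' : U J ≠ U J' := fun h => hne (hU h)
    obtain ⟨s, hs1, hs2⟩ := exists_sep hne'
    have hs3 : sᶜ ∈ U J' := Ultrafilter.compl_mem_iff_notMem.mpr hs2
    have h1 : (⋃ n ∈ s, Y n) ∈ (U J).bind v := by
      rw [bind_mem]
      refine Filter.mem_of_superset hs1 ?_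
      intro n hn
      exact Filter.mem_of_superset (hY1 n) (Set.subset_biUnion_of_mem (u := Y) hn)
    have h2 : (⋃ n ∈ sᶜ, Y n) ∈ (U J').bind v := by
      rw [bind_mem]
      refine Filter.mem_of_superset hs3 ?_
      intro n hn
      exact Filter.mem_of_superset (hY1 n) (Set.subset_biUnion_of_mem (u := Y) hn)
    have hJ' : (U J).bind v = (U J').bind v := hJ
    rw [← hJ'] at h2
    obtain ⟨x, hx1, hx2⟩ := Ultrafilter.nonempty_of_mem (Filter.inter_mem h1 h2)
    simp only [Set.mem_iUnion] at hx1 hx2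
    obtain ⟨a, ha, hxa⟩ := hx1
    obtain ⟨b, hb, hxb⟩ := hx2
    have hab : a ≠ b := by
      rintro rfl
      exact hb ha
    exact Set.disjoint_left.mp (hY2 a b hab) hxa hxb
  · intro J i
    rw [bind_mem]
    have : {k | S i ∈ v k} = Set.univ := by
      ext k
      simp only [Set.mem_ofPred_eq, Set.mem_univ, iff_true]
      exact hwS _ i
    rw [this]
    exact Filter.univ_mem

/-- A family of members of `q` with only finitely many ultrafilters above it generates `q` together
with one further member. -/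
theorem gen_of_finite {I : Type} (S : I → Set ℕ) (q : Ultrafilter ℕ) (hq : ∀ i, S i ∈ q)
    (hfin : {p : Ultrafilter ℕ | ∀ i, S i ∈ p}.Finite) :
    ∃ B ∈ q, ∀ X ∈ q, ∃ s : Finset I, B ∩ ⋂ i ∈ s, S i ⊆ X := by
  classical
  have hsep : ∀ p : Ultrafilter ℕ, ∃ N ∈ q, p ≠ q → N ∉ p := by
    intro p
    by_cases h : p = q
    · exact ⟨Set.univ, Filter.univ_mem, fun h' => absurd h h'⟩
    · obtain ⟨N, h1, h2⟩ := exists_sep (U := q) (V := p) (fun h' => h h'.symm)
      exact ⟨N, h1, fun _ => h2⟩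
  choose N hN1 hN2 using hsep
  refine ⟨⋂ p ∈ {p : Ultrafilter ℕ | ∀ i, S i ∈ p}, N p, ?_, ?_⟩
  · rw [← Ultrafilter.mem_coe, Filter.biInter_mem hfin]
    exact fun p _ => hN1 p
  · intro X hX
    by_contra hcon
    push Not at hcon
    set B : Set ℕ := ⋂ p ∈ {p : Ultrafilter ℕ | ∀ i, S i ∈ p}, N p with hB
    let F : Filter ℕ := ⨅ s : Finset I, Filter.principal ((B ∩ ⋂ i ∈ s, S i) ∩ Xᶜ)
    have hF : F.NeBot := by
      apply Filter.iInf_neBot_of_directed'
      · intro s t
        refine ⟨s ∪ t, ?_, ?_⟩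
        · simp only [ge_iff_le, Filter.le_principal_iff, Filter.mem_principal]
          rintro x ⟨⟨hx1, hx2⟩, hx3⟩
          refine ⟨⟨hx1, ?_⟩, hx3⟩
          simp only [Set.mem_iInter] at hx2 ⊢
          exact fun i hi => hx2 i (Finset.mem_union_left _ hi)
        · simp only [ge_iff_le, Filter.le_principal_iff, Filter.mem_principal]
          rintro x ⟨⟨hx1, hx2⟩, hx3⟩
          refine ⟨⟨hx1, ?_⟩, hx3⟩
          simp only [Set.mem_iInter] at hx2 ⊢
          exact fun i hi => hx2 i (Finset.mem_union_right _ hi)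
      · intro s
        rw [Filter.principal_neBot_iff]
        obtain ⟨x, hx1, hx2⟩ := Set.not_subset.mp (hcon s)
        exact ⟨x, hx1, hx2⟩
    let p := Ultrafilter.of F
    have hle := Ultrafilter.of_le F
    have hmem : ∀ s : Finset I, (B ∩ ⋂ i ∈ s, S i) ∩ Xᶜ ∈ p := by
      intro s
      apply hle
      exact Filter.mem_iInf_of_mem s (Filter.mem_principal_self _)
    have hpS : ∀ i, S i ∈ p := by
      intro i
      refine Filter.mem_of_superset (hmem {i}) ?_
      rintro x ⟨⟨_, hx2⟩, _⟩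
      simpa using hx2
    have hpq : p ≠ q := by
      intro h
      have h1 : Xᶜ ∈ p := Filter.mem_of_superset (hmem ∅) Set.inter_subset_right
      rw [h] at h1
      exact (Ultrafilter.compl_mem_iff_notMem.mp h1) hX
    apply hN2 p hpq
    refine Filter.mem_of_superset (hmem ∅) ?_
    rintro x ⟨⟨hx1, _⟩, _⟩
    rw [hB] at hx1
    simp only [Set.mem_iInter] at hx1
    exact hx1 p hpS

/-- A family with only one ultrafilter `q` above it generates `q`. -/
theorem gen_of_unique {I : Type} (S : I → Set ℕ) (q : Ultrafilter ℕ)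
    (huniq : ∀ p : Ultrafilter ℕ, (∀ i, S i ∈ p) → p = q) :
    ∀ X ∈ q, ∃ s : Finset I, ⋂ i ∈ s, S i ⊆ X := by
  classical
  intro X hX
  by_contra hcon
  push Not at hcon
  let F : Filter ℕ := ⨅ s : Finset I, Filter.principal ((⋂ i ∈ s, S i) ∩ Xᶜ)
  have hF : F.NeBot := by
    apply Filter.iInf_neBot_of_directed'
    · intro s t
      refine ⟨s ∪ t, ?_, ?_⟩
      · simp only [ge_iff_le, Filter.le_principal_iff, Filter.mem_principal]
        rintro x ⟨hx2, hx3⟩
        refine ⟨?_, hx3⟩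
        simp only [Set.mem_iInter] at hx2 ⊢
        exact fun i hi => hx2 i (Finset.mem_union_left _ hi)
      · simp only [ge_iff_le, Filter.le_principal_iff, Filter.mem_principal]
        rintro x ⟨hx2, hx3⟩
        refine ⟨?_, hx3⟩
        simp only [Set.mem_iInter] at hx2 ⊢
        exact fun i hi => hx2 i (Finset.mem_union_right _ hi)
    · intro s
      rw [Filter.principal_neBot_iff]
      obtain ⟨x, hx1, hx2⟩ := Set.not_subset.mp (hcon s)
      exact ⟨x, hx1, hx2⟩
  let p := Ultrafilter.of F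
  have hle := Ultrafilter.of_le F
  have hmem : ∀ s : Finset I, (⋂ i ∈ s, S i) ∩ Xᶜ ∈ p := by
    intro s
    apply hle
    exact Filter.mem_iInf_of_mem s (Filter.mem_principal_self _)
  have hpS : ∀ i, S i ∈ p := by
    intro i
    refine Filter.mem_of_superset (hmem {i}) ?_
    rintro x ⟨hx2, _⟩
    simpa using hx2
  have hpq : p = q := huniq p hpS
  have h1 : Xᶜ ∈ p := Filter.mem_of_superset (hmem ∅) Set.inter_subset_right
  rw [hpq] at h1
  exact (Ultrafilter.compl_mem_iff_notMem.mp h1) hX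

/-- isomorphic ultrafilters with common selectors are equal -/
theorem eq_of_iso {q p : Ultrafilter ℕ} (hq : NP q) (hiso : ∃ σ : Equiv.Perm ℕ, q.map σ = p)
    (h : ∀ f : ℕ → ℕ, (∀ m, {i | f i = m}.Finite) → ∃ X, X ∈ q ∧ X ∈ p ∧ InjOn f X) : p = q := by
  obtain ⟨D, _, hD⟩ := dNum_mem
  obtain ⟨σ, rfl⟩ := hiso
  obtain ⟨d, _, b, hb⟩ := map_eq_of_iso hD hq σ
  obtain ⟨X, h1, h2, h3⟩ := h (g b d) (g_fin b d)
  exact (eq_of_map_eq h1 h2 h3 hb).symm

end Pool.Agent.Y467.QP
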