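import Pool.Agent.H562R3.QFinal

set_option autoImplicit false

/-!
Q-points which are limits of fewer than `𝔟` other ultrafilters.

The coarse index maps `g b d` and the lemmas `iso_of_map_eq`, `map_eq_of_iso` are those of the
library `Pool.Agent.H562R3`.
-/

namespace Pool.Agent.Y467.QP

open Pool.Agent.H562R3 Set

/-- nonprincipal -/
def NP (U : Ultrafilter ℕ) : Prop := ∀ n : ℕ, ({n} : Set ℕ) ∉ U

/-- A Q-point. -/
def QPt (U : Ultrafilter ℕ) : Prop :=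
  NP U ∧ ∀ P : Set (Set ℕ), Setoid.IsPartition P → (∀ p ∈ P, p.Finite) →
    ∃ X ∈ U, ∀ p ∈ P, (X ∩ p).Subsingleton

theorem QPt.sel {U : Ultrafilter ℕ} (hU : QPt U) (f : ℕ → ℕ)
    (hf : ∀ m, {i | f i = m}.Finite) : ∃ X ∈ U, InjOn f X := by
  obtain ⟨X, hX, hsub⟩ := hU.2 (Setoid.ker f).classes (Setoid.isPartition_classes _) (by
    rintro p ⟨y, rfl⟩
    refine (hf (f y)).subset ?_
    intro x hx
    exact hx)
  refine ⟨X, hX, ?_⟩
  intro x hx y hy hxy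
  exact hsub {z | (Setoid.ker f) z y} ⟨y, rfl⟩ ⟨hx, hxy⟩ ⟨hy, rfl⟩

/-- (as in `Results/MP_97d187_lc/NeverCountable`) -/
theorem qPt_of_sel {D : Set (ℕ → ℕ)} (hD : Dominating D) {U : Ultrafilter ℕ}
    (hU : NP U) (h : ∀ d ∈ D, ∀ b, ∃ X ∈ U, InjOn (g b d) X) : QPt U := by
  refine ⟨hU, fun P hP hfin => ?_⟩
  have hex : ∀ i : ℕ, ∃ p ∈ P, i ∈ p := fun i => by
    obtain ⟨p, hp, _⟩ := hP.2 i
    exact ⟨p, hp.1, hp.2⟩
  choose p hp hip using hex
  have huniq : ∀ q ∈ P, ∀ i ∈ q, q = p i := by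
    intro q hq i hi
    obtain ⟨r, _, hr⟩ := hP.2 i
    rw [hr q ⟨hq, hi⟩, hr (p i) ⟨hp i, hip i⟩]
  obtain ⟨d, hd, N, hN⟩ := exists_g hD (fun i => sSup (p i))
  obtain ⟨X0, hX0, hi0⟩ := h d hd false
  obtain ⟨X1, hX1, hi1⟩ := h d hd true
  have hNU : ({i | i < N} : Set ℕ)ᶜ ∈ U :=
    Ultrafilter.compl_mem_iff_notMem.mpr (nonprincipal_fin hU _ (Set.finite_Iio N))
  refine ⟨(X0 ∩ X1) ∩ ({i | i < N} : Set ℕ)ᶜ,
    Filter.inter_mem (Filter.inter_mem hX0 hX1) hNU, ?_⟩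
  intro q hq
  have haux : ∀ i ∈ ((X0 ∩ X1) ∩ ({i | i < N} : Set ℕ)ᶜ) ∩ q,
      ∀ j ∈ ((X0 ∩ X1) ∩ ({i | i < N} : Set ℕ)ᶜ) ∩ q, i ≤ j → i = j := by
    rintro i ⟨⟨⟨hi1', hi2'⟩, hi3⟩, hi4⟩ j ⟨⟨⟨hj1, hj2⟩, hj3⟩, hj4⟩ hij
    have hi3' : N ≤ i := by
      simp only [Set.mem_compl_iff, Set.mem_ofPred_eq, not_lt] at hi3
      exact hi3
    have hjp : j ∈ p i := by
      rw [← huniq q hq i hi4]
      exact hj4
    have hle : j ≤ sSup (p i) := le_csSup (hfin _ (hp i)).bddAbove hjp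
    rcases hN i hi3' j hij hle with h2 | h2
    · exact hi0 hi1' hj1 h2
    · exact hi1 hi2' hj2 h2
  intro i hi j hj
  rcases le_total i j with hij | hij
  · exact haux i hi j hj hij
  · exact (haux j hj i hi hij).symm

/-- `f ≤* h` -/
def LeS (f h : ℕ → ℕ) : Prop := ∃ N, ∀ n, N ≤ n → f n ≤ h n

/-- A property of functions which fails on no dominating family holds eventually. -/
theorem ev_of_dom {Bad : Set (ℕ → ℕ)} (h : ¬ Dominating Bad) :
    ∃ f : ℕ → ℕ, ∀ d, LeS f d → d ∉ Bad := by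
  unfold Dominating at h
  push Not at h
  obtain ⟨f, hf⟩ := h
  refine ⟨f, fun d ⟨N, hN⟩ hd => ?_⟩
  obtain ⟨n, hn, hn2⟩ := hf d hd N
  exact absurd (hN n hn) (not_le.mpr hn2)

theorem np_map {U : Ultrafilter ℕ} (hU : NP U) (σ : Equiv.Perm ℕ) : NP (U.map σ) := by
  intro n hn
  have h1 : σ ⁻¹' {n} ∈ U := hn
  have h2 : σ ⁻¹' ({n} : Set ℕ) = {σ.symm n} := by
    ext x
    simp only [Set.mem_preimage, Set.mem_singleton_iff]
    exact ⟨fun h => by rw [← h]; simp, fun h => by rw [h]; simp⟩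
  rw [h2] at h1
  exact hU _ h1

/-- Isomorphic ultrafilters have the same image under one of the two coarse maps of every
fast enough function. -/
theorem ev_iso {U V : Ultrafilter ℕ} (hU : NP U) (h : ∃ σ : Equiv.Perm ℕ, U.map σ = V) :
    ∃ f : ℕ → ℕ, ∀ d, LeS f d → ∃ b, U.map (g b d) = V.map (g b d) := by
  obtain ⟨σ, rfl⟩ := h
  have hnot : ¬ Dominating {d : ℕ → ℕ | ∀ b, U.map (g b d) ≠ (U.map σ).map (g b d)} := by
    intro hD
    obtain ⟨d, hd, b, hb⟩ := map_eq_of_iso hD hU σ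
    exact hd b hb
  obtain ⟨f, hf⟩ := ev_of_dom hnot
  refine ⟨f, fun d hd => ?_⟩
  have h1 := hf d hd
  simp only [Set.mem_ofPred_eq, not_forall, not_not] at h1
  exact h1

/-- If `U` is not a Q-point then one of the two coarse maps of every fast enough function is
not injective on any member of `U`. -/
theorem ev_notQ {U : Ultrafilter ℕ} (hU : NP U) (h : ¬ QPt U) :
    ∃ f : ℕ → ℕ, ∀ d, LeS f d → ∃ b, ∀ X ∈ U, ¬ InjOn (g b d) X := by
  have hnot : ¬ Dominating {d : ℕ → ℕ | ∀ b, ∃ X ∈ U, InjOn (g b d) X} := by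
    intro hD
    exact h (qPt_of_sel hD hU (fun d hd b => hd b))
  obtain ⟨f, hf⟩ := ev_of_dom hnot
  refine ⟨f, fun d hd => ?_⟩
  have h1 := hf d hd
  simp only [Set.mem_ofPred_eq, not_forall, not_exists, not_and] at h1
  exact h1

/-- maps injective on a common member are injective on ultrafilters -/
theorem eq_of_map_eq {U V : Ultrafilter ℕ} {f : ℕ → ℕ} {X : Set ℕ} (hXU : X ∈ U) (hXV : X ∈ V)
    (hf : InjOn f X) (h : U.map f = V.map f) : U = V := by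
  apply Ultrafilter.coe_injective
  apply le_antisymm
  all_goals
    intro s hs
  · have h1 : f '' (s ∩ X) ∈ V.map f := Filter.image_mem_map (Filter.inter_mem hs hXV)
    rw [← h] at h1
    have h2 : f ⁻¹' (f '' (s ∩ X)) ∩ X ∈ U := Filter.inter_mem h1 hXU
    refine Filter.mem_of_superset h2 ?_
    rintro x ⟨⟨y, ⟨hy1, hy2⟩, hy3⟩, hx⟩
    rw [← hf hy2 hx hy3]
    exact hy1
  · have h1 : f '' (s ∩ X) ∈ U.map f := Filter.image_mem_map (Filter.inter_mem hs hXU)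
    rw [h] at h1
    have h2 : f ⁻¹' (f '' (s ∩ X)) ∩ X ∈ V := Filter.inter_mem h1 hXV
    refine Filter.mem_of_superset h2 ?_
    rintro x ⟨⟨y, ⟨hy1, hy2⟩, hy3⟩, hx⟩
    rw [← hf hy2 hx hy3]
    exact hy1

/-- `S` is smaller than the bounding number: families of functions indexed by `S` are bounded. -/
def Bdd (S : Set (Ultrafilter ℕ)) : Prop :=
  ∀ F : S → ℕ → ℕ, ∃ h, ∀ s, LeS (F s) h

/-- Near a Q-point `q`, a small family contains only Q-points not isomorphic to `q`. -/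
theorem near {q : Ultrafilter ℕ} (hq : QPt q) {S : Set (Ultrafilter ℕ)} (hS : Bdd S)
    (hnp : ∀ p ∈ S, NP p) (hqS : q ∉ S) :
    ∃ X ∈ q, ∀ p ∈ S, X ∈ p → QPt p ∧ ¬ ∃ σ : Equiv.Perm ℕ, q.map σ = p := by
  classical
  have hex : ∀ p : S, ∃ f : ℕ → ℕ, ∀ d, LeS f d →
      (¬ QPt p.1 → ∃ b, ∀ X ∈ p.1, ¬ InjOn (g b d) X) ∧
      ((∃ σ : Equiv.Perm ℕ, q.map σ = p.1) → ∃ b, q.map (g b d) = p.1.map (g b d)) := by
    intro p
    by_cases h1 : QPt p.1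
    · by_cases h2 : ∃ σ : Equiv.Perm ℕ, q.map σ = p.1
      · obtain ⟨f, hf⟩ := ev_iso hq.1 h2
        exact ⟨f, fun d hd => ⟨fun h => absurd h1 h, fun _ => hf d hd⟩⟩
      · exact ⟨fun _ => 0, fun d _ => ⟨fun h => absurd h1 h, fun h => absurd h h2⟩⟩
    · obtain ⟨f, hf⟩ := ev_notQ (hnp p.1 p.2) h1
      by_cases h2 : ∃ σ : Equiv.Perm ℕ, q.map σ = p.1
      · obtain ⟨f', hf'⟩ := ev_iso hq.1 h2
        refine ⟨fun n => max (f n) (f' n), fun d ⟨N, hN⟩ => ⟨fun _ => hf d ⟨N, fun n hn =>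
          le_trans (le_max_left _ _) (hN n hn)⟩, fun _ => hf' d ⟨N, fun n hn =>
          le_trans (le_max_right _ _) (hN n hn)⟩⟩⟩
      · exact ⟨f, fun d hd => ⟨fun _ => hf d hd, fun h => absurd h h2⟩⟩
  choose F hF using hex
  obtain ⟨d, hd⟩ := hS F
  obtain ⟨X0, hX0, hi0⟩ := hq.sel (g false d) (g_fin false d)
  obtain ⟨X1, hX1, hi1⟩ := hq.sel (g true d) (g_fin true d)
  have hinj : ∀ b, InjOn (g b d) (X0 ∩ X1) := by
    intro b
    cases b
    · exact hi0.mono Set.inter_subset_left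
    · exact hi1.mono Set.inter_subset_right
  refine ⟨X0 ∩ X1, Filter.inter_mem hX0 hX1, fun p hp hXp => ?_⟩
  obtain ⟨h1, h2⟩ := hF ⟨p, hp⟩ d (hd ⟨p, hp⟩)
  constructor
  · by_contra hcon
    obtain ⟨b, hb⟩ := h1 hcon
    exact hb _ hXp (hinj b)
  · intro hiso
    obtain ⟨b, hb⟩ := h2 hiso
    have h3 := eq_of_map_eq (Filter.inter_mem hX0 hX1) hXp (hinj b) hb
    rw [h3] at hqS
    exact hqS hp

/-- Near a Q-point `q` there are no isomorphic copies, in a small family, of a given Q-point `r`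
which is not isomorphic to `q`. -/
theorem near_class {q r : Ultrafilter ℕ} (hq : QPt q) (hr : QPt r)
    (hqr : ¬ ∃ σ : Equiv.Perm ℕ, q.map σ = r) {S : Set (Ultrafilter ℕ)} (hS : Bdd S) :
    ∃ X ∈ q, ∀ p ∈ S, (∃ σ : Equiv.Perm ℕ, r.map σ = p) → X ∉ p := by
  classical
  have hex : ∀ p : S, ∃ f : ℕ → ℕ, ∀ d, LeS f d →
      ((∃ σ : Equiv.Perm ℕ, r.map σ = p.1) → ∃ b, r.map (g b d) = p.1.map (g b d)) := by
    intro p
    by_cases h2 : ∃ σ : Equiv.Perm ℕ, r.map σ = p.1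
    · obtain ⟨f, hf⟩ := ev_iso hr.1 h2
      exact ⟨f, fun d hd _ => hf d hd⟩
    · exact ⟨fun _ => 0, fun d _ h => absurd h h2⟩
  choose F hF using hex
  obtain ⟨d, hd⟩ := hS F
  have hne : ∀ b, q.map (g b d) ≠ r.map (g b d) := by
    intro b h
    exact hqr (iso_of_map_eq hq.1 (g b d) (g_fin b d) (hq.sel _ (g_fin b d))
      (hr.sel _ (g_fin b d)) h)
  have hsep : ∀ b, ∃ Z ∈ q.map (g b d), Z ∉ r.map (g b d) := fun b => exists_sep (hne b)
  choose Z hZ1 hZ2 using hsep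
  refine ⟨(g false d) ⁻¹' (Z false) ∩ (g true d) ⁻¹' (Z true),
    Filter.inter_mem (hZ1 false) (hZ1 true), fun p hp hiso hmem => ?_⟩
  obtain ⟨b, hb⟩ := hF ⟨p, hp⟩ d (hd ⟨p, hp⟩) hiso
  have h1 : Z b ∈ p.map (g b d) := by
    rw [map_mem]
    cases b
    · exact Filter.mem_of_superset hmem Set.inter_subset_left
    · exact Filter.mem_of_superset hmem Set.inter_subset_right
  rw [← hb] at h1
  exact hZ2 b h1

end Pool.Agent.Y467.QP
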