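import Pool.Agent.Y467.QP.Base

set_option autoImplicit false

/-!
Counting Q-points.
-/

namespace Pool.Agent.Y467.QP

open Pool.Agent.H562R3 Set

/-- Sums over sequences with disjoint members are determined, modulo the index ultrafilter, by the
sum and the index function. -/
theorem bind_inj {W W' : Ultrafilter ℕ} {u u' : ℕ → Ultrafilter ℕ} {φ : ℕ → ℕ}
    (h : W.bind u = W'.bind u') (hu : {k | φ ⁻¹' {k} ∈ u k} ∈ W)
    (hu' : {k | φ ⁻¹' {k} ∈ u' k} ∈ W') : W = W' ∧ {k | u k = u' k} ∈ W := by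
  classical
  have key : ∀ (W : Ultrafilter ℕ) (u : ℕ → Ultrafilter ℕ), {k | φ ⁻¹' {k} ∈ u k} ∈ W →
      ∀ s : Set ℕ, s ∈ W → φ ⁻¹' s ∈ W.bind u := by
    intro W u hu s hs
    rw [bind_mem]
    refine Filter.mem_of_superset (Filter.inter_mem hu hs) ?_
    rintro k ⟨hk1, hk2⟩
    refine Filter.mem_of_superset hk1 ?_
    intro x hx
    rw [Set.mem_preimage, Set.mem_singleton_iff] at hx
    rw [Set.mem_preimage, hx]
    exact hk2
  have hWW : W = W' := by
    apply Ultrafilter.coe_injective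
    apply le_antisymm
    · intro s hs
      by_contra hcon
      have h1 : sᶜ ∈ W := Ultrafilter.compl_mem_iff_notMem.mpr hcon
      have h2 := key W u hu _ h1
      rw [h] at h2
      have h3 := key W' u' hu' _ hs
      have h4 : (φ ⁻¹' sᶜ ∩ φ ⁻¹' s) ∈ W'.bind u' := Filter.inter_mem h2 h3
      obtain ⟨x, hx1, hx2⟩ := Ultrafilter.nonempty_of_mem h4
      exact hx1 hx2
    · intro s hs
      by_contra hcon
      have h1 : sᶜ ∈ W' := Ultrafilter.compl_mem_iff_notMem.mpr hcon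
      have h2 := key W' u' hu' _ h1
      rw [← h] at h2
      have h3 := key W u hu _ hs
      have h4 : (φ ⁻¹' sᶜ ∩ φ ⁻¹' s) ∈ W.bind u := Filter.inter_mem h2 h3
      obtain ⟨x, hx1, hx2⟩ := Ultrafilter.nonempty_of_mem h4
      exact hx1 hx2
  refine ⟨hWW, ?_⟩
  by_contra hcon
  have hB : {k | u k = u' k}ᶜ ∈ W := Ultrafilter.compl_mem_iff_notMem.mpr hcon
  have hsep : ∀ k, ∃ N : Set ℕ, u k ≠ u' k → (N ∈ u k ∧ N ∉ u' k) := by
    intro k
    by_cases hk : u k = u' k
    · exact ⟨∅, fun h => absurd hk h⟩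
    · obtain ⟨N, h1, h2⟩ := exists_sep hk
      exact ⟨N, fun _ => ⟨h1, h2⟩⟩
  choose N hN using hsep
  have h1 : {x | x ∈ N (φ x)} ∈ W.bind u := by
    rw [bind_mem]
    refine Filter.mem_of_superset (Filter.inter_mem hu hB) ?_
    rintro k ⟨hk1, hk2⟩
    refine Filter.mem_of_superset (Filter.inter_mem hk1 (hN k hk2).1) ?_
    rintro x ⟨hx1, hx2⟩
    rw [Set.mem_preimage, Set.mem_singleton_iff] at hx1
    show x ∈ N (φ x)
    rw [hx1]
    exact hx2
  rw [h, bind_mem, ← hWW] at h1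
  rw [← hWW] at hu'
  obtain ⟨k, ⟨hk1, hk2⟩, hk3⟩ := Ultrafilter.nonempty_of_mem
    (Filter.inter_mem (Filter.inter_mem h1 hu') hB)
  apply (hN k hk3).2
  refine Filter.mem_of_superset (Filter.inter_mem hk1 hk2) ?_
  rintro x ⟨hx1, hx2⟩
  rw [Set.mem_preimage, Set.mem_singleton_iff] at hx2
  have h5 : x ∈ N (φ x) := hx1
  rw [hx2] at h5
  exact h5

/-- An index function for a sequence along a good set. -/
theorem index_fun {u : ℕ → Ultrafilter ℕ} {f : ℕ → ℕ} {W : Ultrafilter ℕ}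
    (hu : Function.Injective (fun k => (u k).map f)) (hW : ∀ s : Set ℕ, s.Finite → s ∉ W)
    (hgood : ∃ A ∈ W, Good (fun k => (u k).map f) A) :
    ∃ φ : ℕ → ℕ, {k | φ ⁻¹' {k} ∈ u k} ∈ W := by
  classical
  obtain ⟨A, hAW, m, hm⟩ := hgood
  have hA1 : A \ {m} ∈ W := by
    have : ({m} : Set ℕ)ᶜ ∈ W := Ultrafilter.compl_mem_iff_notMem.mpr (hW _ (Set.finite_singleton m))
    exact Filter.inter_mem hAW this
  obtain ⟨Z, hZ1, hZ2⟩ := disc hu (A \ {m}) (by
    intro k hk
    obtain ⟨N, hN, hfin⟩ := hm k hk.2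
    exact ⟨N, hN, hfin.subset (fun j hj => ⟨hj.1.1, hj.2⟩)⟩)
  refine ⟨fun x => if h : ∃ k ∈ A \ {m}, f x ∈ Z k then h.choose else 0, ?_⟩
  refine Filter.mem_of_superset hA1 ?_
  intro k hk
  refine Filter.mem_of_superset (map_mem.mp (hZ1 k hk)) ?_
  intro x hx
  have hex : ∃ k ∈ A \ {m}, f x ∈ Z k := ⟨k, hk, hx⟩
  rw [Set.mem_preimage, Set.mem_singleton_iff]
  simp only [dif_pos hex]
  have h1 := hex.choose_spec
  by_contra hne
  exact Set.disjoint_left.mp (hZ2 _ h1.1 k hk hne) h1.2 hx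

/-- weak P-point: not a limit of countably many other nonprincipal ultrafilters -/
def WPt (U : Ultrafilter ℕ) : Prop :=
  ∀ S : Set (Ultrafilter ℕ), S.Countable → (∀ p ∈ S, NP p) → U ∉ S → ∃ X ∈ U, ∀ p ∈ S, X ∉ p

/-- pairwise non-isomorphic weak P-points which are Q-points are uniformly discrete -/
theorem wp_good {u : ℕ → Ultrafilter ℕ} (hQ : ∀ k, QPt (u k)) (hwp : ∀ k, WPt (u k))
    (f : ℕ → ℕ) (hf : ∀ m, {i | f i = m}.Finite)
    (hinj : Function.Injective (fun k => (u k).map f)) :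
    Good (fun k => (u k).map f) Set.univ := by
  classical
  refine ⟨0, fun k _ => ?_⟩
  obtain ⟨X, hX, hXi⟩ := (hQ k).sel f hf
  let h : ℕ → ℕ := Function.invFunOn f X
  have hh : ∀ x ∈ X, h (f x) = x := hXi.leftInvOn_invFunOn
  let S : Set (Ultrafilter ℕ) := {p | ∃ j, j ≠ k ∧ f '' X ∈ (u j).map f ∧ p = ((u j).map f).map h}
  have hSc : S.Countable := by
    refine (Set.countable_range (fun j => ((u j).map f).map h)).mono ?_
    rintro p ⟨j, _, _, rfl⟩
    exact ⟨j, rfl⟩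
  have hSnp : ∀ p ∈ S, NP p := by
    rintro p ⟨j, _, hj, rfl⟩ n hn
    have h1 : h ⁻¹' {n} ∩ f '' X ∈ (u j).map f := Filter.inter_mem hn hj
    have h2 : f ⁻¹' (h ⁻¹' {n} ∩ f '' X) ∈ u j := h1
    refine nonprincipal_fin (hQ j).1 _ ((hf (f n)).subset ?_) h2
    rintro y ⟨hy1, x, hx, hxy⟩
    rw [Set.mem_preimage, Set.mem_singleton_iff, ← hxy, hh x hx] at hy1
    show f y = f n
    rw [← hxy, hy1]
  have hkS : u k ∉ S := by
    rintro ⟨j, hjk, hj, he⟩
    apply hjk
    apply hinj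
    show (u j).map f = (u k).map f
    have hle : ∀ s, s ∈ (u k).map f → s ∈ (u j).map f := by
      intro s hs
      have h1 : f ⁻¹' s ∈ u k := hs
      rw [he] at h1
      have h2 : h ⁻¹' (f ⁻¹' s) ∩ f '' X ∈ (u j).map f := Filter.inter_mem h1 hj
      refine Filter.mem_of_superset h2 ?_
      rintro y ⟨hy1, x, hx, hxy⟩
      rw [Set.mem_preimage, Set.mem_preimage, ← hxy, hh x hx] at hy1
      rw [← hxy]
      exact hy1
    apply Ultrafilter.coe_injective
    apply le_antisymm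
    · intro s hs
      exact hle s hs
    · intro s hs
      by_contra hs'
      have h1 : sᶜ ∈ (u k).map f := Ultrafilter.compl_mem_iff_notMem.mpr hs'
      exact (Ultrafilter.compl_mem_iff_notMem.mp (hle _ h1)) hs
  obtain ⟨Y, hY, hYS⟩ := hwp k S hSc hSnp hkS
  refine ⟨f '' (Y ∩ X), Filter.image_mem_map (Filter.inter_mem hY hX), ?_⟩
  refine (Set.finite_singleton k).subset ?_
  rintro j ⟨_, hj⟩
  rw [Set.mem_singleton_iff]
  by_contra hjk
  have h1 : f '' X ∈ (u j).map f :=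
    Filter.mem_of_superset hj (Set.image_mono Set.inter_subset_right)
  apply hYS _ ⟨j, hjk, h1, rfl⟩
  show h ⁻¹' Y ∈ (u j).map f
  refine Filter.mem_of_superset hj ?_
  rintro _ ⟨x, ⟨hx1, hx2⟩, rfl⟩
  rw [Set.mem_preimage, hh x hx2]
  exact hx1

/-- codes of initial segments -/
theorem seg_inj {K : Type} {e : List K → K} (he : Function.Injective e) (f f' : ℕ → K) (n n' : ℕ)
    (h : e ((List.range n).map f) = e ((List.range n').map f')) :
    n = n' ∧ ∀ i < n, f i = f' i := by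
  have h1 : (List.range n).map f = (List.range n').map f' := he h
  have h2 : n = n' := by
    have := congrArg List.length h1
    simpa using this
  subst h2
  refine ⟨rfl, fun i hi => ?_⟩
  have h3 : ((List.range n).map f)[i]? = ((List.range n).map f')[i]? := by rw [h1]
  simpa [hi] using h3

end Pool.Agent.Y467.QP
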